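import Mathlib.Tactic
import Mathlib.Analysis.Real.Sqrt
import Mathlib.Order.Lattice.Nat
import Mathlib.Order.ConditionallyCompleteLattice.Finset
import Mathlib.Data.Set.Finite.Lattice

/-!
# MP_1596c6_nt: slowest pairs at the integers `g_t + β g_{t-1}`

For `T = {(4, 9), (23, 27)}` the pair `(23, 27)` lies in `R'_T`, but it lies in
`S_T(g_t + 27 g_{t-1})` for no `t ≥ 4`: the `(4,9)`-recurrence always reaches this integer later.
-/

set_option autoImplicit false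

namespace Pool.Agent.Results.MP_1596c6_nt.TwoPairSet

open Real

/-- `w α β a₁ a₂ k = w_k^{α,β}(a₁, a₂)` for `k ≥ 1` (the value at `0` is not used). -/
def w (α β a₁ a₂ : ℕ) : ℕ → ℕ
  | 0 => 0
  | 1 => a₁
  | 2 => a₂
  | (k + 3) => α * w α β a₁ a₂ (k + 2) + β * w α β a₁ a₂ (k + 1)

/-- `g α β k = g_k^{α,β}`: `g_0 = 0`, `g_1 = 1`, `g_{k+2} = α g_{k+1} + β g_k`
(so `g_2 = α`). -/
def g (α β : ℕ) : ℕ → ℕ
  | 0 => 0
  | 1 => 1
  | (k + 2) => α * g α β (k + 1) + β * g α β k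

/-- `s_{α,β}(n)`: the largest index `s ≥ 1` at which a recurrence with positive starting values
reaches `n`. -/
noncomputable def sVal (p : ℕ × ℕ) (n : ℕ) : ℕ :=
  sSup {s : ℕ | 1 ≤ s ∧ ∃ a₁ a₂ : ℕ, 1 ≤ a₁ ∧ 1 ≤ a₂ ∧ w p.1 p.2 a₁ a₂ s = n}

/-- `γ_{α,β}` -/
noncomputable def γ (p : ℕ × ℕ) : ℝ := ((p.1 : ℝ) + √((p.1 : ℝ) ^ 2 + 4 * p.2)) / 2

/-- `S_T(n)`: the pairs of `T` with maximal `s_{α,β}(n)` -/
def S (T : Set (ℕ × ℕ)) (n : ℕ) : Set (ℕ × ℕ) := {p ∈ T | ∀ q ∈ T, sVal q n ≤ sVal p n}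

/-- `Γ_T` -/
noncomputable def Γ (T : Set (ℕ × ℕ)) : ℝ := sInf (γ '' T)

/-- `R'_T` -/
def R' (T : Set (ℕ × ℕ)) : Set (ℕ × ℕ) := {p ∈ T | γ p < Γ T ^ 2}

lemma w_pos (α β a₁ a₂ : ℕ) (hα : 1 ≤ α) (h1 : 1 ≤ a₁) (h2 : 1 ≤ a₂) :
    ∀ k, 1 ≤ w α β a₁ a₂ (k + 1) ∧ 1 ≤ w α β a₁ a₂ (k + 2) := by
  intro k
  induction k with
  | zero => exact ⟨h1, h2⟩
  | succ k ih =>
    refine ⟨ih.2, ?_⟩
    show 1 ≤ α * w α β a₁ a₂ (k + 2) + β * w α β a₁ a₂ (k + 1)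
    nlinarith [ih.2, Nat.zero_le (β * w α β a₁ a₂ (k + 1))]

lemma w_ge (α β a₁ a₂ : ℕ) (hα : 1 ≤ α) (hβ : 1 ≤ β) (h1 : 1 ≤ a₁) (h2 : 1 ≤ a₂) :
    ∀ k, k + 1 ≤ w α β a₁ a₂ (k + 2) := by
  intro k
  induction k with
  | zero => exact h2
  | succ k ih =>
    have h := (w_pos α β a₁ a₂ hα h1 h2 k).1
    show k + 1 + 1 ≤ α * w α β a₁ a₂ (k + 2) + β * w α β a₁ a₂ (k + 1)
    have h3 : w α β a₁ a₂ (k + 2) ≤ α * w α β a₁ a₂ (k + 2) := Nat.le_mul_of_pos_left _ hα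
    have h4 : w α β a₁ a₂ (k + 1) ≤ β * w α β a₁ a₂ (k + 1) := Nat.le_mul_of_pos_left _ hβ
    omega

lemma bdd (p : ℕ × ℕ) (hα : 1 ≤ p.1) (hβ : 1 ≤ p.2) (n : ℕ) :
    BddAbove {s : ℕ | 1 ≤ s ∧ ∃ a₁ a₂ : ℕ, 1 ≤ a₁ ∧ 1 ≤ a₂ ∧ w p.1 p.2 a₁ a₂ s = n} := by
  refine ⟨n + 1, ?_⟩
  rintro s ⟨hs, a₁, a₂, h1, h2, h⟩
  rcases Nat.lt_or_ge s 2 with h3 | h3
  · omega
  · obtain ⟨k, rfl⟩ : ∃ k, s = k + 2 := ⟨s - 2, by omega⟩
    have := w_ge p.1 p.2 a₁ a₂ hα hβ h1 h2 k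
    omega

/-- monotonicity in the starting values -/
lemma w_mono (α β a₁ a₂ : ℕ) (h1 : 1 ≤ a₁) (h2 : 1 ≤ a₂) :
    ∀ k, g α β (k + 1) + β * g α β k ≤ w α β a₁ a₂ (k + 2) ∧
      g α β (k + 2) + β * g α β (k + 1) ≤ w α β a₁ a₂ (k + 3) := by
  intro k
  induction k with
  | zero =>
    constructor
    · simp [g, w]; exact h2
    · show g α β 2 + β * g α β 1 ≤ α * w α β a₁ a₂ 2 + β * w α β a₁ a₂ 1
      simp only [g, w]
      nlinarith [Nat.mul_le_mul_left α h2, Nat.mul_le_mul_left β h1]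
  | succ k ih =>
    refine ⟨ih.2, ?_⟩
    show α * g α β (k + 2) + β * g α β (k + 1) + β * g α β (k + 2) ≤
      α * w α β a₁ a₂ (k + 3) + β * w α β a₁ a₂ (k + 2)
    have e : g α β (k + 2) = α * g α β (k + 1) + β * g α β k := rfl
    have h3 := Nat.mul_le_mul_left α ih.2
    have h4 := Nat.mul_le_mul_left β ih.1
    calc α * g α β (k + 2) + β * g α β (k + 1) + β * g α β (k + 2)
        = α * (g α β (k + 2) + β * g α β (k + 1)) + β * (g α β (k + 1) + β * g α β k) := by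
          rw [e]; ring
      _ ≤ _ := Nat.add_le_add h3 h4

/-- the integers `n_t` for the pair `(23, 27)` -/
def nn (t : ℕ) : ℕ := g 23 27 t + 27 * g 23 27 (t - 1)

lemma nn_succ (t : ℕ) : nn (t + 1) = g 23 27 (t + 1) + 27 * g 23 27 t := rfl

lemma nn_rec (t : ℕ) : nn (t + 3) = 23 * nn (t + 2) + 27 * nn (t + 1) := by
  show g 23 27 (t + 3) + 27 * g 23 27 (t + 2) = 23 * (g 23 27 (t + 2) + 27 * g 23 27 (t + 1)) +
    27 * (g 23 27 (t + 1) + 27 * g 23 27 t)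
  have e1 : g 23 27 (t + 3) = 23 * g 23 27 (t + 2) + 27 * g 23 27 (t + 1) := rfl
  have e2 : g 23 27 (t + 2) = 23 * g 23 27 (t + 1) + 27 * g 23 27 t := rfl
  omega

lemma nn_pos : ∀ t, 1 ≤ nn (t + 1) ∧ 1 ≤ nn (t + 2) := by
  intro t
  induction t with
  | zero => simp [nn, g]
  | succ t ih => exact ⟨ih.2, by rw [nn_rec]; omega⟩

lemma nn_lt (t : ℕ) : nn (t + 1) < nn (t + 2) := by
  rcases t with _ | t
  · simp [nn, g]
  · show nn (t + 2) < nn (t + 3)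
    rw [nn_rec]
    have := nn_pos t
    omega

lemma nn_strict {i j : ℕ} (h : i < j) : nn (i + 1) < nn (j + 1) := by
  have hm : StrictMono fun t => nn (t + 1) := strictMono_nat_of_lt_succ fun t => nn_lt t
  exact hm h

lemma sVal_le (t : ℕ) : sVal (23, 27) (nn (t + 1)) ≤ t + 2 := by
  unfold sVal
  apply csSup_le'
  rintro s ⟨hs, a₁, a₂, h1, h2, h⟩
  by_contra hc
  obtain ⟨k, rfl⟩ : ∃ k, s = k + 2 := ⟨s - 2, by omega⟩
  have h3 := (w_mono 23 27 a₁ a₂ h1 h2 k).1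
  have h4 : nn (t + 1) < nn (k + 1) := nn_strict (by omega)
  rw [nn_succ k] at h4
  simp only at h
  omega

/-- the Lucas sequence with parameters `5, 3` -/
def U : ℕ → ℤ
  | 0 => 0
  | 1 => 1
  | (k + 2) => 5 * U (k + 1) - 3 * U k

lemma U_growth : ∀ k, 0 ≤ U k ∧ 4 * U k + 1 ≤ U (k + 1) := by
  intro k
  induction k with
  | zero => simp [U]
  | succ k ih =>
    refine ⟨by omega, ?_⟩
    show 4 * U (k + 1) + 1 ≤ 5 * U (k + 1) - 3 * U k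
    omega

lemma U_binet (r : ℝ) (hr : r ^ 2 = 13) : ∀ k, r * (U k : ℝ) =
      ((5 + r) / 2) ^ k - ((5 - r) / 2) ^ k ∧ r * (U (k + 1) : ℝ) =
      ((5 + r) / 2) ^ (k + 1) - ((5 - r) / 2) ^ (k + 1) := by
  intro k
  induction k with
  | zero => simp [U]; ring
  | succ k ih =>
    refine ⟨ih.2, ?_⟩
    have e : U (k + 1 + 1) = 5 * U (k + 1) - 3 * U k := rfl
    rw [e]
    push_cast
    have q1 : ((5 + r) / 2) ^ 2 = 5 * ((5 + r) / 2) - 3 := by nlinarith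
    have q2 : ((5 - r) / 2) ^ 2 = 5 * ((5 - r) / 2) - 3 := by nlinarith
    have p1 : ((5 + r) / 2) ^ (k + 1 + 1) = ((5 + r) / 2) ^ k * ((5 + r) / 2) ^ 2 := by ring
    have p2 : ((5 - r) / 2) ^ (k + 1 + 1) = ((5 - r) / 2) ^ k * ((5 - r) / 2) ^ 2 := by ring
    have s1 : ((5 + r) / 2) ^ (k + 1) = ((5 + r) / 2) ^ k * ((5 + r) / 2) := by ring
    have s2 : ((5 - r) / 2) ^ (k + 1) = ((5 - r) / 2) ^ k * ((5 - r) / 2) := by ring
    rw [p1, p2, q1, q2]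
    rw [s1, s2] at ih
    linear_combination 5 * ih.2 - 3 * ih.1

lemma nn_binet (r : ℝ) (hr : r ^ 2 = 13) : ∀ k, r * (nn (k + 1) : ℝ) =
      (-3 + r) / 2 * ((23 + 7 * r) / 2) ^ (k + 1) - (-3 - r) / 2 * ((23 - 7 * r) / 2) ^ (k + 1) ∧
    r * (nn (k + 2) : ℝ) =
      (-3 + r) / 2 * ((23 + 7 * r) / 2) ^ (k + 2) - (-3 - r) / 2 * ((23 - 7 * r) / 2) ^ (k + 2) := by
  intro k
  induction k with
  | zero =>
    have h1 : nn 1 = 1 := by decide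
    have h2 : nn 2 = 50 := by decide
    constructor
    · rw [zero_add, h1]; push_cast; ring
    · rw [zero_add, h2]; push_cast; linear_combination (-49 / 4) * r * hr
  | succ k ih =>
    refine ⟨ih.2, ?_⟩
    have e : nn (k + 1 + 2) = 23 * nn (k + 2) + 27 * nn (k + 1) := nn_rec k
    rw [e]
    push_cast
    have q1 : ((23 + 7 * r) / 2) ^ 2 = 23 * ((23 + 7 * r) / 2) + 27 := by nlinarith
    have q2 : ((23 - 7 * r) / 2) ^ 2 = 23 * ((23 - 7 * r) / 2) + 27 := by nlinarith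
    have p1 : ((23 + 7 * r) / 2) ^ (k + 1 + 2) =
      ((23 + 7 * r) / 2) ^ (k + 1) * ((23 + 7 * r) / 2) ^ 2 := by ring
    have p2 : ((23 - 7 * r) / 2) ^ (k + 1 + 2) =
      ((23 - 7 * r) / 2) ^ (k + 1) * ((23 - 7 * r) / 2) ^ 2 := by ring
    have s1 : ((23 + 7 * r) / 2) ^ (k + 2) = ((23 + 7 * r) / 2) ^ (k + 1) * ((23 + 7 * r) / 2) := by
      ring
    have s2 : ((23 - 7 * r) / 2) ^ (k + 2) = ((23 - 7 * r) / 2) ^ (k + 1) * ((23 - 7 * r) / 2) := by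
      ring
    rw [p1, p2, q1, q2]
    rw [s1, s2] at ih
    linear_combination 23 * ih.2 + 27 * ih.1

lemma w_binet (r : ℝ) (hr : r ^ 2 = 13) (m a₁ a₂ : ℕ) (h1 : (a₁ : ℤ) = U (m + 2))
    (h2 : (a₂ : ℤ) = U (m + 4) - 3 * U (m + 3)) : ∀ k, r * (w 4 9 a₁ a₂ (k + 1) : ℝ) =
      (3 + r) / 2 * ((5 + r) / 2) ^ m * (2 + r) ^ (k + 1) -
        (3 - r) / 2 * ((5 - r) / 2) ^ m * (2 - r) ^ (k + 1) ∧
    r * (w 4 9 a₁ a₂ (k + 2) : ℝ) =
      (3 + r) / 2 * ((5 + r) / 2) ^ m * (2 + r) ^ (k + 2) -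
        (3 - r) / 2 * ((5 - r) / 2) ^ m * (2 - r) ^ (k + 2) := by
  intro k
  induction k with
  | zero =>
    have c1 : (a₁ : ℝ) = (U (m + 2) : ℝ) := by exact_mod_cast h1
    have c2 : (a₂ : ℝ) = (U (m + 4) : ℝ) - 3 * (U (m + 3) : ℝ) := by exact_mod_cast h2
    have b2 := (U_binet r hr (m + 2)).1
    have b3 := (U_binet r hr (m + 3)).1
    have b4 := (U_binet r hr (m + 4)).1
    constructor
    · show r * (a₁ : ℝ) = _
      rw [c1, b2]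
      have q1 : (3 + r) / 2 * (2 + r) = ((5 + r) / 2) ^ 2 := by nlinarith
      have q2 : (3 - r) / 2 * (2 - r) = ((5 - r) / 2) ^ 2 := by nlinarith
      rw [pow_add, pow_add, ← q1, ← q2]
      ring
    · show r * (a₂ : ℝ) = _
      rw [c2, mul_sub, mul_left_comm, b3, b4]
      have q1 : (3 + r) / 2 * (2 + r) ^ 2 = ((5 + r) / 2) ^ 4 - 3 * ((5 + r) / 2) ^ 3 := by
        have h3 : r ^ 3 = 13 * r := by rw [pow_succ, hr]
        have h4 : r ^ 4 = 169 := by rw [show r ^ 4 = (r ^ 2) ^ 2 by ring, hr]; norm_num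
        ring_nf
        rw [h3, h4, hr]
        ring
      have q2 : (3 - r) / 2 * (2 - r) ^ 2 = ((5 - r) / 2) ^ 4 - 3 * ((5 - r) / 2) ^ 3 := by
        have h3 : r ^ 3 = 13 * r := by rw [pow_succ, hr]
        have h4 : r ^ 4 = 169 := by rw [show r ^ 4 = (r ^ 2) ^ 2 by ring, hr]; norm_num
        ring_nf
        rw [h3, h4, hr]
        ring
      have t1 : ((5 + r) / 2) ^ (m + 4) - 3 * ((5 + r) / 2) ^ (m + 3) =
        ((5 + r) / 2) ^ m * (((5 + r) / 2) ^ 4 - 3 * ((5 + r) / 2) ^ 3) := by ring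
      have t2 : ((5 - r) / 2) ^ (m + 4) - 3 * ((5 - r) / 2) ^ (m + 3) =
        ((5 - r) / 2) ^ m * (((5 - r) / 2) ^ 4 - 3 * ((5 - r) / 2) ^ 3) := by ring
      rw [← q1] at t1
      rw [← q2] at t2
      linear_combination t1 - t2
  | succ k ih =>
    refine ⟨ih.2, ?_⟩
    have e : w 4 9 a₁ a₂ (k + 1 + 2) = 4 * w 4 9 a₁ a₂ (k + 2) + 9 * w 4 9 a₁ a₂ (k + 1) := rfl
    rw [e]
    push_cast
    have q1 : (2 + r) ^ 2 = 4 * (2 + r) + 9 := by nlinarith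
    have q2 : (2 - r) ^ 2 = 4 * (2 - r) + 9 := by nlinarith
    have p1 : (2 + r) ^ (k + 1 + 2) = (2 + r) ^ (k + 1) * (2 + r) ^ 2 := by ring
    have p2 : (2 - r) ^ (k + 1 + 2) = (2 - r) ^ (k + 1) * (2 - r) ^ 2 := by ring
    have s1 : (2 + r) ^ (k + 2) = (2 + r) ^ (k + 1) * (2 + r) := by ring
    have s2 : (2 - r) ^ (k + 2) = (2 - r) ^ (k + 1) * (2 - r) := by ring
    rw [p1, p2, q1, q2]
    rw [s1, s2] at ih
    linear_combination 4 * ih.2 + 9 * ih.1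

/-- the `(4, 9)`-recurrence reaches `n_t` at the index `t + 2` -/
lemma reach (m : ℕ) : ∃ a₁ a₂ : ℕ, 1 ≤ a₁ ∧ 1 ≤ a₂ ∧ w 4 9 a₁ a₂ (m + 6) = nn (m + 4) := by
  have g1 := U_growth (m + 1)
  have g2 := U_growth (m + 2)
  have g3 := U_growth (m + 3)
  have e1 : U (m + 1 + 1) = U (m + 2) := rfl
  have e2 : U (m + 2 + 1) = U (m + 3) := rfl
  have e3 : U (m + 3 + 1) = U (m + 4) := rfl
  rw [e1] at g1
  rw [e2] at g2
  rw [e3] at g3
  refine ⟨(U (m + 2)).toNat, (U (m + 4) - 3 * U (m + 3)).toNat, by omega, by omega, ?_⟩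
  set r : ℝ := √13 with hrdef
  have hr : r ^ 2 = 13 := Real.sq_sqrt (by norm_num)
  have hr0 : r ≠ 0 := by
    intro h
    rw [h] at hr
    norm_num at hr
  have hw := (w_binet r hr m (U (m + 2)).toNat (U (m + 4) - 3 * U (m + 3)).toNat (by omega)
    (by omega) (m + 4)).2
  have hn := (nn_binet r hr (m + 3)).1
  have q1 : (-3 + r) / 2 * ((5 + r) / 2) ^ 4 = (3 + r) / 2 * (2 + r) ^ 2 := by
    have h3 : r ^ 3 = 13 * r := by rw [pow_succ, hr]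
    have h4 : r ^ 4 = 169 := by rw [show r ^ 4 = (r ^ 2) ^ 2 by ring, hr]; norm_num
    have h5 : r ^ 5 = 169 * r := by rw [pow_succ, h4]
    ring_nf
    rw [h3, h4, h5, hr]
    ring
  have q2 : (-3 - r) / 2 * ((5 - r) / 2) ^ 4 = (3 - r) / 2 * (2 - r) ^ 2 := by
    have h3 : r ^ 3 = 13 * r := by rw [pow_succ, hr]
    have h4 : r ^ 4 = 169 := by rw [show r ^ 4 = (r ^ 2) ^ 2 by ring, hr]; norm_num
    have h5 : r ^ 5 = 169 * r := by rw [pow_succ, h4]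
    ring_nf
    rw [h3, h4, h5, hr]
    ring
  have f1 : (23 + 7 * r) / 2 = (2 + r) * ((5 + r) / 2) := by nlinarith
  have f2 : (23 - 7 * r) / 2 = (2 - r) * ((5 - r) / 2) := by nlinarith
  have key : r * (w 4 9 (U (m + 2)).toNat (U (m + 4) - 3 * U (m + 3)).toNat (m + 6) : ℝ) =
      r * (nn (m + 4) : ℝ) := by
    rw [show m + 6 = m + 4 + 2 by ring, hw, show m + 4 = m + 3 + 1 by ring, hn, f1, f2, mul_pow,
      mul_pow]
    have t1 : (3 + r) / 2 * ((5 + r) / 2) ^ m * (2 + r) ^ (m + 3 + 1 + 2) =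
        ((3 + r) / 2 * (2 + r) ^ 2) * (((5 + r) / 2) ^ m * (2 + r) ^ (m + 4)) := by ring
    have t2 : (3 - r) / 2 * ((5 - r) / 2) ^ m * (2 - r) ^ (m + 3 + 1 + 2) =
        ((3 - r) / 2 * (2 - r) ^ 2) * (((5 - r) / 2) ^ m * (2 - r) ^ (m + 4)) := by ring
    rw [t1, t2, ← q1, ← q2]
    ring
  have := mul_left_cancel₀ hr0 key
  exact_mod_cast this

lemma sVal_ge (m : ℕ) : m + 6 ≤ sVal (4, 9) (nn (m + 4)) := by
  unfold sVal
  apply le_csSup (bdd (4, 9) (by norm_num) (by norm_num) _)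
  obtain ⟨a₁, a₂, h1, h2, h⟩ := reach m
  exact ⟨by omega, a₁, a₂, h1, h2, h⟩

/-- There are a nonempty set `T` of coprime pairs of positive integers and a pair
`(α, β) ∈ R'_T` such that `(α, β) ∈ S_T(g_t + β g_{t-1})` holds for only finitely many `t ≥ 2`. -/
theorem result : ∃ T : Set (ℕ × ℕ), T.Nonempty ∧
    (∀ p ∈ T, 1 ≤ p.1 ∧ 1 ≤ p.2 ∧ Nat.Coprime p.1 p.2) ∧
    ∃ p ∈ R' T, {t : ℕ | 2 ≤ t ∧ p ∈ S T (g p.1 p.2 t + p.2 * g p.1 p.2 (t - 1))}.Finite := by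
  refine ⟨{(4, 9), (23, 27)}, ⟨(4, 9), by simp⟩, ?_, (23, 27), ⟨by simp, ?_⟩, ?_⟩
  · intro p hp
    simp only [Set.mem_insert_iff, Set.mem_singleton_iff] at hp
    rcases hp with rfl | rfl
    · exact ⟨by norm_num, by norm_num, by norm_num⟩
    · exact ⟨by norm_num, by norm_num, by norm_num⟩
  · -- `γ(23,27) < γ(4,9)²`
    have h1 : (7.2 : ℝ) < √((4 : ℝ) ^ 2 + 4 * 9) := by
      rw [Real.lt_sqrt (by norm_num)]; norm_num
    have h2 : √((23 : ℝ) ^ 2 + 4 * 27) < 25.3 := by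
      rw [Real.sqrt_lt' (by norm_num)]; norm_num
    have h3 : (25 : ℝ) < √((23 : ℝ) ^ 2 + 4 * 27) := by
      rw [Real.lt_sqrt (by norm_num)]; norm_num
    have h4 : √((4 : ℝ) ^ 2 + 4 * 9) < 7.3 := by
      rw [Real.sqrt_lt' (by norm_num)]; norm_num
    have hΓ : (5.6 : ℝ) ≤ Γ {(4, 9), (23, 27)} := by
      unfold Γ
      apply le_csInf
      · exact ⟨_, Set.mem_image_of_mem _ (by simp : ((4, 9) : ℕ × ℕ) ∈ _)⟩
      · rintro x ⟨p, hp, rfl⟩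
        simp only [Set.mem_insert_iff, Set.mem_singleton_iff] at hp
        rcases hp with rfl | rfl
        · unfold γ
          push_cast
          norm_num at h1 ⊢
          linarith
        · unfold γ
          push_cast
          norm_num at h3 ⊢
          linarith
    have hγ : γ (23, 27) < 25 := by
      unfold γ
      push_cast
      norm_num at h2 ⊢
      linarith
    nlinarith
  · apply (Set.finite_lt_nat 4).subset
    rintro t ⟨ht, hS⟩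
    by_contra hc
    simp only [Set.mem_ofPred_eq, not_lt] at hc
    obtain ⟨m, rfl⟩ : ∃ m, t = m + 4 := ⟨t - 4, by omega⟩
    have h1 := hS.2 (4, 9) (by simp)
    have h2 : sVal (4, 9) (nn (m + 4)) ≤ sVal (23, 27) (nn (m + 4)) := h1
    have h3 := sVal_ge m
    have h4 := sVal_le (m + 3)
    have h5 : nn (m + 3 + 1) = nn (m + 4) := rfl
    rw [h5] at h4
    omega

end Pool.Agent.Results.MP_1596c6_nt.TwoPairSet
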